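import Mathlib

/-!
Kleitman's flow-down conjecture (MP_67d0bb_co): closure under substitution.
-/

namespace Pool.Agent.Results.MP_67d0bb_co.Substitution

open Finset

/-- `f` flows down to `g` on a finite ordered set `X`. -/
def FlowsDown {X : Type*} [Fintype X] [LE X] (f g : X → ℝ) : Prop :=
  ∃ v : X → X → ℝ, (∀ a b, 0 ≤ v a b) ∧ (∀ a, ∑ b, v a b = f a) ∧
    (∀ b, ∑ a, v a b = g b) ∧ (∀ a b, ¬ b ≤ a → v a b = 0)

/-- Maximal intersecting families, in the form of antipodal up-sets. -/
def AntipodalUpSet {α : Type*} [Fintype α] [DecidableEq α] (F : Finset (Finset α)) : Prop :=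
  (∀ S ∈ F, ∀ T : Finset α, S ⊆ T → T ∈ F) ∧ ∀ S : Finset α, S ∈ F ↔ Sᶜ ∉ F

/-- The family `F` satisfies the conclusion of Kleitman's conjecture. -/
def Kleitman {α : Type*} [Fintype α] [DecidableEq α] (F : Finset (Finset α)) : Prop :=
  ∃ w : α → ℝ, (∀ i, 0 ≤ w i) ∧ ∑ i, w i = 1 ∧
    FlowsDown (fun S : Finset α => if S ∈ F then (1 : ℝ) else 0) (fun S => ∑ i ∈ S, w i)

/-- The trace of `B` on the substituted point: the point is present iff `B ∈ G`. -/
def trace {β : Type*} [DecidableEq β] (G : Finset (Finset β)) (B : Finset β) : Finset Unit :=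
  if B ∈ G then {()} else ∅

/-- Substitute the family `G` on `β` for the point `inr ()` of the family `H` on `α ⊕ Unit`. -/
def subst {α β : Type*} [Fintype α] [Fintype β] [DecidableEq α] [DecidableEq β]
    (H : Finset (Finset (α ⊕ Unit))) (G : Finset (Finset β)) : Finset (Finset (α ⊕ β)) :=
  univ.filter (fun S => S.toLeft.disjSum (trace G S.toRight) ∈ H)

theorem FlowsDown.trans {X : Type*} [Fintype X] [Preorder X] {f g h : X → ℝ}
    (h1 : FlowsDown f g) (h2 : FlowsDown g h) : FlowsDown f h := by
  obtain ⟨v, v0, vr, vc, vs⟩ := h1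
  obtain ⟨w, w0, wr, wc, ws⟩ := h2
  have hg : ∀ b, 0 ≤ g b := fun b => by rw [← vc b]; exact Finset.sum_nonneg fun a _ => v0 a b
  have hv0 : ∀ a b, g b = 0 → v a b = 0 := by
    intro a b hb
    have h := vc b
    rw [hb] at h
    exact (Finset.sum_eq_zero_iff_of_nonneg (fun a _ => v0 a b)).1 h a (mem_univ a)
  have hw0 : ∀ b c, g b = 0 → w b c = 0 := by
    intro b c hb
    have h := wr b
    rw [hb] at h
    exact (Finset.sum_eq_zero_iff_of_nonneg (fun c _ => w0 b c)).1 h c (mem_univ c)
  refine ⟨fun a c => ∑ b, v a b * w b c / g b, ?_, ?_, ?_, ?_⟩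
  · intro a c
    exact Finset.sum_nonneg fun b _ => div_nonneg (mul_nonneg (v0 a b) (w0 b c)) (hg b)
  · intro a
    rw [Finset.sum_comm, ← vr a]
    refine Finset.sum_congr rfl fun b _ => ?_
    rw [← Finset.sum_div, ← Finset.mul_sum, wr b]
    by_cases hb : g b = 0
    · rw [hb, hv0 a b hb]; simp
    · field_simp
  · intro c
    rw [Finset.sum_comm, ← wc c]
    refine Finset.sum_congr rfl fun b _ => ?_
    have : ∀ a, v a b * w b c / g b = v a b * (w b c / g b) := fun a => by ring
    simp only [this]
    rw [← Finset.sum_mul, vc b]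
    by_cases hb : g b = 0
    · rw [hb, hw0 b c hb]; simp
    · field_simp
  · intro a c hac
    refine Finset.sum_eq_zero fun b _ => ?_
    by_cases h1 : b ≤ a
    · have h2 : ¬ c ≤ b := fun h => hac (h.trans h1)
      rw [ws b c h2]; simp
    · rw [vs a b h1]; simp

theorem FlowsDown.transfer {X Y : Type*} [Fintype X] [Fintype Y] [LE X] [LE Y] (e : X ≃o Y)
    {f g : Y → ℝ} (h : FlowsDown f g) : FlowsDown (fun x => f (e x)) (fun x => g (e x)) := by
  obtain ⟨v, v0, vr, vc, vs⟩ := h
  refine ⟨fun a b => v (e a) (e b), fun a b => v0 _ _, fun a => ?_, fun b => ?_, fun a b hab => ?_⟩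
  · exact (Equiv.sum_comp e.toEquiv (fun y => v (e a) y)).trans (vr (e a))
  · exact (Equiv.sum_comp e.toEquiv (fun y => v y (e b))).trans (vc (e b))
  · exact vs _ _ (fun h => hab (e.le_iff_le.1 h))

/-- Composition with a trace map, given a kernel realising the trace moves. -/
theorem FlowsDown.comp_trace {X Y U : Type*} [Fintype X] [Fintype Y] [Fintype U]
    [DecidableEq U] [LE X] [LE Y] [LE U] (x : Y → U) (k : Y → Y → ℝ)
    (k0 : ∀ y y', 0 ≤ k y y') (ks : ∀ y y', ¬ y' ≤ y → k y y' = 0)
    (kr : ∀ y u', u' ≤ x y → ∑ y' ∈ univ.filter (fun y' => x y' = u'), k y y' = 1)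
    (kc : ∀ y' u, x y' ≤ u → ∑ y ∈ univ.filter (fun y => x y = u), k y y' = 1)
    {f g : X × U → ℝ} (h : FlowsDown f g) :
    FlowsDown (fun p : X × Y => f (p.1, x p.2)) (fun p => g (p.1, x p.2)) := by
  obtain ⟨v, v0, vr, vc, vs⟩ := h
  refine ⟨fun p q => v (p.1, x p.2) (q.1, x q.2) * k p.2 q.2,
    fun p q => mul_nonneg (v0 _ _) (k0 _ _), ?_, ?_, ?_⟩
  · rintro ⟨a, y⟩
    rw [Fintype.sum_prod_type]
    simp only
    rw [← vr (a, x y), Fintype.sum_prod_type]
    refine Finset.sum_congr rfl fun a' _ => ?_
    rw [← Finset.sum_fiberwise_of_maps_to (s := univ) (t := univ) (g := x)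
      (fun i _ => mem_univ _)]
    refine Finset.sum_congr rfl fun u' _ => ?_
    have h1 : ∑ y' ∈ univ.filter (fun y' => x y' = u'), v (a, x y) (a', x y') * k y y'
        = ∑ y' ∈ univ.filter (fun y' => x y' = u'), v (a, x y) (a', u') * k y y' := by
      refine Finset.sum_congr rfl fun y' hy' => ?_
      rw [(mem_filter.1 hy').2]
    rw [h1, ← Finset.mul_sum]
    by_cases hu : u' ≤ x y
    · rw [kr y u' hu, mul_one]
    · rw [vs (a, x y) (a', u') (fun hh => hu hh.2)]; simp
  · rintro ⟨a', y'⟩
    rw [Fintype.sum_prod_type]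
    simp only
    rw [← vc (a', x y'), Fintype.sum_prod_type]
    refine Finset.sum_congr rfl fun a _ => ?_
    rw [← Finset.sum_fiberwise_of_maps_to (s := univ) (t := univ) (g := x)
      (fun i _ => mem_univ _)]
    refine Finset.sum_congr rfl fun u _ => ?_
    have h1 : ∑ y ∈ univ.filter (fun y => x y = u), v (a, x y) (a', x y') * k y y'
        = ∑ y ∈ univ.filter (fun y => x y = u), v (a, u) (a', x y') * k y y' := by
      refine Finset.sum_congr rfl fun y hy => ?_
      rw [(mem_filter.1 hy).2]
    rw [h1, ← Finset.mul_sum]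
    by_cases hu : x y' ≤ u
    · rw [kc y' u hu, mul_one]
    · rw [vs (a, u) (a', x y') (fun hh => hu hh.2)]; simp
  · rintro ⟨a, y⟩ ⟨a', y'⟩ hle
    simp only
    by_cases hy : y' ≤ y
    · by_cases ha : a' ≤ a
      · exact absurd ⟨ha, hy⟩ hle
      · rw [vs _ _ (fun hh => ha hh.1), zero_mul]
    · rw [ks _ _ hy, mul_zero]

theorem FlowsDown.add_lift {X Y : Type*} [Fintype X] [Fintype Y] [DecidableEq X] [DecidableEq Y]
    [Preorder X] [Preorder Y] (c : X → ℝ) (hc : ∀ a, 0 ≤ c a) (r : ℝ) (hr : 0 ≤ r)
    {f g : Y → ℝ} (h : FlowsDown f g) :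
    FlowsDown (fun p : X × Y => c p.1 + r * f p.2) (fun p => c p.1 + r * g p.2) := by
  obtain ⟨v, v0, vr, vc, vs⟩ := h
  refine ⟨fun p q => if p.1 = q.1 then (c p.1 * (if p.2 = q.2 then 1 else 0) + r * v p.2 q.2)
    else 0, ?_, ?_, ?_, ?_⟩
  · intro p q
    dsimp only
    split_ifs
    · exact add_nonneg (mul_nonneg (hc _) zero_le_one) (mul_nonneg hr (v0 _ _))
    · exact add_nonneg (by simp) (mul_nonneg hr (v0 _ _))
    · exact le_rfl
  · rintro ⟨a, y⟩
    rw [Fintype.sum_prod_type]
    simp only
    rw [Finset.sum_eq_single a]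
    · simp only [if_true, Finset.sum_add_distrib, ← Finset.mul_sum, vr y]
      simp
    · intro a' _ ha'
      simp [Ne.symm ha']
    · simp
  · rintro ⟨a', y'⟩
    rw [Fintype.sum_prod_type]
    simp only
    rw [Finset.sum_eq_single a']
    · simp only [if_true, Finset.sum_add_distrib, ← Finset.mul_sum, vc y']
      simp
    · intro a _ ha
      simp [ha]
    · simp
  · rintro ⟨a, y⟩ ⟨a', y'⟩ hle
    simp only
    by_cases ha : a = a'
    · subst ha
      have hy : ¬ y' ≤ y := fun hh => hle ⟨le_rfl, hh⟩
      have hne : y ≠ y' := fun hh => hy (hh ▸ le_rfl)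
      simp [hne, vs _ _ hy]
    · simp [ha]

theorem unit_cases : ∀ u : Finset Unit, u = ∅ ∨ u = {()} := by decide

section matching

variable {β : Type*} [Fintype β] [DecidableEq β] {G : Finset (Finset β)}

theorem compl_eq_map (hG : AntipodalUpSet G) :
    Gᶜ = G.map ⟨fun S => Sᶜ, compl_injective⟩ := by
  ext S
  simp only [mem_compl, mem_map, Function.Embedding.coeFn_mk]
  constructor
  · intro h
    refine ⟨Sᶜ, ?_, compl_compl S⟩
    rw [hG.2, compl_compl]; exact h
  · rintro ⟨T, hT, rfl⟩
    exact (hG.2 T).1 hT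

theorem exists_matching (hG : AntipodalUpSet G) :
    ∃ φ : {B // B ∈ G} → Finset β, Function.Injective φ ∧ (∀ B, φ B ∉ G) ∧
      (∀ B, φ B ⊆ B.1) ∧ ∀ B' : Finset β, B' ∉ G → ∃ B, φ B = B' := by
  classical
  have hcard : #Gᶜ = #G := by rw [compl_eq_map hG, card_map]
  have htot : 2 * #G = 2 ^ Fintype.card β := by
    have := Finset.card_add_card_compl G
    rw [hcard, Fintype.card_finset] at this
    omega
  have hup : IsUpperSet (G : Set (Finset β)) := fun S T hST hS => hG.1 S hS T hST
  let t : {B // B ∈ G} → Finset (Finset β) := fun B => univ.filter (fun C => C ⊆ B.1 ∧ C ∉ G)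
  have hall : ∀ s : Finset {B // B ∈ G}, #s ≤ #(s.biUnion t) := by
    intro s
    let D : Finset (Finset β) := univ.filter (fun C => ∃ B ∈ s, C ⊆ B.1)
    have hD : IsLowerSet (D : Set (Finset β)) := by
      intro S T hTS hS
      simp only [D, coe_filter, mem_univ, true_and, Set.mem_ofPred_eq] at hS ⊢
      obtain ⟨B, hB, hSB⟩ := hS
      exact ⟨B, hB, hTS.trans hSB⟩
    have h1 := IsUpperSet.card_inter_le_finset hup hD
    have hpos : 0 < #G := by
      have : 0 < 2 ^ Fintype.card β := by positivity
      omega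
    have h2 : 2 * #(G ∩ D) ≤ #D := by
      rw [← htot] at h1
      have : #G * (2 * #(G ∩ D)) ≤ #G * #D := by nlinarith
      exact Nat.le_of_mul_le_mul_left this hpos
    have h3 : #(D ∩ G) + #(D \ G) = #D := Finset.card_inter_add_card_sdiff D G
    have h4 : #s ≤ #(G ∩ D) := by
      rw [← Finset.card_map (Function.Embedding.subtype _) (s := s)]
      apply Finset.card_le_card
      intro C hC
      obtain ⟨B, hB, rfl⟩ := mem_map.1 hC
      simp only [mem_inter, D, mem_filter, mem_univ, true_and]
      exact ⟨B.2, B, hB, subset_refl _⟩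
    have h5 : D \ G = s.biUnion t := by
      ext C
      simp only [D, t, mem_sdiff, mem_filter, mem_univ, true_and, mem_biUnion]
      constructor
      · rintro ⟨⟨B, hB, hC⟩, hn⟩; exact ⟨B, hB, hC, hn⟩
      · rintro ⟨B, hB, hC, hn⟩; exact ⟨⟨B, hB, hC⟩, hn⟩
    rw [← h5]
    rw [inter_comm] at h4 h2
    omega
  obtain ⟨φ, hinj, hφ⟩ := (Finset.all_card_le_biUnion_card_iff_exists_injective t).1 hall
  have hφ' : ∀ B, φ B ⊆ B.1 ∧ φ B ∉ G := fun B => by simpa [t] using hφ B
  refine ⟨φ, hinj, fun B => (hφ' B).2, fun B => (hφ' B).1, ?_⟩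
  have himg : univ.image φ = Gᶜ := by
    apply Finset.eq_of_subset_of_card_le
    · intro C hC
      obtain ⟨B, -, rfl⟩ := mem_image.1 hC
      exact mem_compl.2 (hφ' B).2
    · rw [card_image_of_injective _ hinj, hcard, card_univ, Fintype.card_coe]
  intro B' hB'
  have : B' ∈ univ.image φ := by rw [himg]; exact mem_compl.2 hB'
  obtain ⟨B, -, hB⟩ := mem_image.1 this
  exact ⟨B, hB⟩

omit [Fintype β] in
theorem trace_eq_single {B : Finset β} : trace G B = {()} ↔ B ∈ G := by
  unfold trace; split_ifs with h
  · simp [h]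
  · simp only [h, iff_false]; decide

omit [Fintype β] in
theorem trace_eq_empty {B : Finset β} : trace G B = ∅ ↔ B ∉ G := by
  unfold trace; split_ifs with h
  · simp only [h, not_true, iff_false]; decide
  · simp [h]

theorem exists_kernel (hG : AntipodalUpSet G) :
    ∃ k : Finset β → Finset β → ℝ, (∀ y y', 0 ≤ k y y') ∧ (∀ y y', ¬ y' ≤ y → k y y' = 0) ∧
    (∀ y u', u' ≤ trace G y → ∑ y' ∈ univ.filter (fun y' => trace G y' = u'), k y y' = 1) ∧
    (∀ y' u, trace G y' ≤ u → ∑ y ∈ univ.filter (fun y => trace G y = u), k y y' = 1) := by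
  classical
  obtain ⟨φ, hinj, hn, hsub, hsurj⟩ := exists_matching hG
  let m : Finset β → Finset β → ℝ := fun B B' =>
    if h : B ∈ G then (if φ ⟨B, h⟩ = B' then 1 else 0) else 0
  let k : Finset β → Finset β → ℝ := fun B B' =>
    if (B ∈ G ↔ B' ∈ G) then (if B = B' then 1 else 0) else m B B'
  have ksame : ∀ B B', (B ∈ G ↔ B' ∈ G) → k B B' = if B = B' then 1 else 0 := fun B B' h => by
    simp only [k, h, if_true]
  have kdiff : ∀ B B', ¬ (B ∈ G ↔ B' ∈ G) → k B B' = m B B' := fun B B' h => by
    simp only [k, h, if_false]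
  refine ⟨k, ?_, ?_, ?_, ?_⟩
  · intro y y'
    simp only [k, m]
    split_ifs <;> norm_num
  · intro y y' hle
    have hne : y ≠ y' := fun h => hle (h ▸ le_rfl)
    by_cases h : (y ∈ G ↔ y' ∈ G)
    · rw [ksame _ _ h, if_neg hne]
    · rw [kdiff _ _ h]
      simp only [m]
      split_ifs with h1 h2
      · exact absurd (h2 ▸ hsub ⟨y, h1⟩) hle
      · rfl
      · rfl
  · intro y u' hu
    rcases unit_cases u' with rfl | rfl
    · -- moving to sets outside G
      by_cases hy : y ∈ G
      · rw [Finset.sum_eq_single (φ ⟨y, hy⟩)]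
        · rw [kdiff _ _ (by simp [hy, hn ⟨y, hy⟩])]
          simp [m, hy]
        · intro b hb hbne
          have hbG : b ∉ G := trace_eq_empty.1 (mem_filter.1 hb).2
          rw [kdiff _ _ (by simp [hy, hbG])]
          simp [m, hy, Ne.symm hbne]
        · intro h
          exact (h (mem_filter.2 ⟨mem_univ _, trace_eq_empty.2 (hn ⟨y, hy⟩)⟩)).elim
      · rw [Finset.sum_eq_single y]
        · rw [ksame _ _ Iff.rfl, if_pos rfl]
        · intro b hb hbne
          have hbG : b ∉ G := trace_eq_empty.1 (mem_filter.1 hb).2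
          rw [ksame _ _ (by simp [hy, hbG]), if_neg (Ne.symm hbne)]
        · intro h
          exact (h (mem_filter.2 ⟨mem_univ _, trace_eq_empty.2 hy⟩)).elim
    · have hy : y ∈ G := by
        by_contra hy
        rw [trace_eq_empty.2 hy] at hu
        revert hu; decide
      rw [Finset.sum_eq_single y]
      · rw [ksame _ _ Iff.rfl, if_pos rfl]
      · intro b hb hbne
        have hbG : b ∈ G := trace_eq_single.1 (mem_filter.1 hb).2
        rw [ksame _ _ (by simp [hy, hbG]), if_neg (Ne.symm hbne)]
      · intro h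
        exact (h (mem_filter.2 ⟨mem_univ _, trace_eq_single.2 hy⟩)).elim
  · intro y' u hu
    rcases unit_cases u with rfl | rfl
    · have hy : y' ∉ G := by
        intro hy
        rw [trace_eq_single.2 hy] at hu
        revert hu; decide
      rw [Finset.sum_eq_single y']
      · rw [ksame _ _ Iff.rfl, if_pos rfl]
      · intro b hb hbne
        have hbG : b ∉ G := trace_eq_empty.1 (mem_filter.1 hb).2
        rw [ksame _ _ (by simp [hy, hbG]), if_neg hbne]
      · intro h
        exact (h (mem_filter.2 ⟨mem_univ _, trace_eq_empty.2 hy⟩)).elim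
    · by_cases hy : y' ∈ G
      · rw [Finset.sum_eq_single y']
        · rw [ksame _ _ Iff.rfl, if_pos rfl]
        · intro b hb hbne
          have hbG : b ∈ G := trace_eq_single.1 (mem_filter.1 hb).2
          rw [ksame _ _ (by simp [hy, hbG]), if_neg hbne]
        · intro h
          exact (h (mem_filter.2 ⟨mem_univ _, trace_eq_single.2 hy⟩)).elim
      · obtain ⟨B, hB⟩ := hsurj y' hy
        rw [Finset.sum_eq_single B.1]
        · rw [kdiff _ _ (by simp [hy, B.2])]
          simp [m, B.2, hB]
        · intro b hb hbne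
          have hbG : b ∈ G := trace_eq_single.1 (mem_filter.1 hb).2
          rw [kdiff _ _ (by simp [hy, hbG])]
          simp only [m, hbG, dif_pos]
          rw [if_neg]
          intro h
          apply hbne
          have := hinj (h.trans hB.symm)
          rw [← this]
        · intro h
          exact (h (mem_filter.2 ⟨mem_univ _, trace_eq_single.2 B.2⟩)).elim

end matching

section subst

variable {α β : Type*} [Fintype α] [Fintype β] [DecidableEq α] [DecidableEq β]
  {H : Finset (Finset (α ⊕ Unit))} {G : Finset (Finset β)}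

theorem mem_subst {S : Finset (α ⊕ β)} :
    S ∈ subst H G ↔ S.toLeft.disjSum (trace G S.toRight) ∈ H := by
  simp [subst]

theorem trace_mono (hG : AntipodalUpSet G) {B C : Finset β} (h : B ⊆ C) :
    trace G B ⊆ trace G C := by
  unfold trace
  split_ifs with h1 h2
  · exact subset_refl _
  · exact absurd (hG.1 B h1 C h) h2
  · exact empty_subset _
  · exact subset_refl _

theorem trace_compl (hG : AntipodalUpSet G) (B : Finset β) : trace G Bᶜ = (trace G B)ᶜ := by
  by_cases h : B ∈ G
  · have h' : Bᶜ ∉ G := (hG.2 B).1 h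
    rw [trace_eq_single.2 h, trace_eq_empty.2 h']; decide
  · have h' : Bᶜ ∈ G := by rw [hG.2, compl_compl]; exact h
    rw [trace_eq_single.2 h', trace_eq_empty.2 h]; decide

theorem subst_antipodal (hH : AntipodalUpSet H) (hG : AntipodalUpSet G) :
    AntipodalUpSet (subst H G) := by
  refine ⟨fun S hS T hST => ?_, fun S => ?_⟩
  · rw [mem_subst] at hS ⊢
    refine hH.1 _ hS _ ?_
    rw [disjSum_subset, toLeft_disjSum, toRight_disjSum]
    exact ⟨toLeft_subset_toLeft hST, trace_mono hG (toRight_subset_toRight hST)⟩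
  · rw [mem_subst, mem_subst, hH.2]
    have h1 : (Sᶜ).toLeft = (S.toLeft)ᶜ := by ext x; simp
    have h2 : (Sᶜ).toRight = (S.toRight)ᶜ := by ext x; simp
    have h3 : (S.toLeft.disjSum (trace G S.toRight))ᶜ
        = (Sᶜ).toLeft.disjSum (trace G (Sᶜ).toRight) := by
      rw [h1, h2, trace_compl hG]
      ext x
      rcases x with x | x <;> simp
    rw [h3]

theorem subst_kleitman (hG : AntipodalUpSet G) (kH : Kleitman H) (kG : Kleitman G) :
    Kleitman (subst H G) := by
  obtain ⟨w, w0, w1, hflow⟩ := kH
  obtain ⟨u, u0, u1, gflow⟩ := kG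
  obtain ⟨k, k0, ks, kr, kc⟩ := exists_kernel hG
  -- move the outer flow to `Finset α × Finset Unit`
  have e1 := hflow.transfer (Finset.sumEquiv (α := α) (β := Unit)).symm
  have e2 := FlowsDown.comp_trace (X := Finset α) (trace G) k k0 ks kr kc e1
  have e3 := FlowsDown.add_lift (X := Finset α) (fun A => ∑ i ∈ A, w (Sum.inl i))
    (fun A => Finset.sum_nonneg fun i _ => w0 _) (w (Sum.inr ())) (w0 _) gflow
  have e23 : (fun p : Finset α × Finset β =>
      (∑ i ∈ (Finset.sumEquiv (α := α) (β := Unit)).symm (p.1, trace G p.2), w i))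
      = fun p => (∑ i ∈ p.1, w (Sum.inl i)) + w (Sum.inr ()) * (if p.2 ∈ G then 1 else 0) := by
    funext p
    rw [Finset.sumEquiv_symm_apply, Finset.sum_disjSum]
    congr 1
    unfold trace
    split_ifs <;> simp
  rw [e23] at e2
  have e4 := (e2.trans e3).transfer (Finset.sumEquiv (α := α) (β := β))
  refine ⟨Sum.elim (fun i => w (Sum.inl i)) (fun j => w (Sum.inr ()) * u j), ?_, ?_, ?_⟩
  · rintro (i | j)
    · exact w0 _
    · exact mul_nonneg (w0 _) (u0 _)
  · rw [Fintype.sum_sum_type]
    simp only [Sum.elim_inl, Sum.elim_inr]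
    rw [← Finset.mul_sum, u1, mul_one]
    rw [Fintype.sum_sum_type] at w1
    simpa using w1
  · convert e4 using 1
    · funext S
      simp only [mem_subst]
      rfl
    · funext S
      conv_lhs => rw [← Finset.toLeft_disjSum_toRight (u := S)]
      rw [Finset.sum_disjSum]
      simp only [Sum.elim_inl, Sum.elim_inr, ← Finset.mul_sum]
      rfl

end subst

theorem flow_const {β : Type*} [Fintype β] [DecidableEq β] {G : Finset (Finset β)}
    (hG : ∀ S ∈ G, ∀ T : Finset β, S ⊆ T → T ∈ G) :
    FlowsDown (fun S : Finset β => if S ∈ G then (1 : ℝ) else 0)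
      (fun _ => (#G : ℝ) / 2 ^ Fintype.card β) := by
  classical
  set N : ℕ := 2 ^ Fintype.card β with hN
  have hNpos : 0 < N := by rw [hN]; positivity
  have hup : IsUpperSet (G : Set (Finset β)) := fun S T hST hS => hG S hS T hST
  let t : {B // B ∈ G} × Fin N → Finset (Finset β × Fin #G) :=
    fun p => (univ.filter (fun C => C ⊆ p.1.1)) ×ˢ univ
  have hall : ∀ s : Finset ({B // B ∈ G} × Fin N), #s ≤ #(s.biUnion t) := by
    intro s
    let D : Finset (Finset β) := univ.filter (fun C => ∃ p ∈ s, C ⊆ p.1.1)
    have hD : IsLowerSet (D : Set (Finset β)) := by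
      intro S T hTS hS
      simp only [D, coe_filter, mem_univ, true_and, Set.mem_ofPred_eq] at hS ⊢
      obtain ⟨B, hB, hSB⟩ := hS
      exact ⟨B, hB, hTS.trans hSB⟩
    have h1 : N * #(G ∩ D) ≤ #G * #D := IsUpperSet.card_inter_le_finset hup hD
    have h2 : #s ≤ #(s.image Prod.fst) * N := by
      have : s ⊆ (s.image Prod.fst) ×ˢ (univ : Finset (Fin N)) := by
        intro p hp
        exact mem_product.2 ⟨mem_image_of_mem _ hp, mem_univ _⟩
      calc #s ≤ _ := card_le_card this
        _ = _ := by rw [card_product, card_univ, Fintype.card_fin]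
    have h3 : #(s.image Prod.fst) ≤ #(G ∩ D) := by
      rw [← Finset.card_map (Function.Embedding.subtype _) (s := s.image Prod.fst)]
      apply Finset.card_le_card
      intro C hC
      obtain ⟨B, hB, rfl⟩ := mem_map.1 hC
      obtain ⟨p, hp, rfl⟩ := mem_image.1 hB
      simp only [mem_inter, D, mem_filter, mem_univ, true_and]
      exact ⟨p.1.2, p, hp, subset_refl _⟩
    have h4 : s.biUnion t = D ×ˢ univ := by
      ext ⟨C, i⟩
      simp [D, t]
    rw [h4, card_product, card_univ, Fintype.card_fin]
    calc #s ≤ #(s.image Prod.fst) * N := h2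
      _ ≤ #(G ∩ D) * N := Nat.mul_le_mul_right _ h3
      _ = N * #(G ∩ D) := Nat.mul_comm _ _
      _ ≤ #G * #D := h1
      _ = #D * #G := Nat.mul_comm _ _
  obtain ⟨φ, hinj, hφ⟩ := (Finset.all_card_le_biUnion_card_iff_exists_injective t).1 hall
  have hφ' : ∀ p, (φ p).1 ⊆ p.1.1 := fun p => by
    have := hφ p
    simp only [t, mem_product, mem_filter, mem_univ, true_and, and_true] at this
    exact this
  have hbij : Function.Bijective φ := by
    rw [Fintype.bijective_iff_injective_and_card]
    refine ⟨hinj, ?_⟩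
    rw [Fintype.card_prod, Fintype.card_prod, Fintype.card_fin, Fintype.card_fin,
      Fintype.card_coe, Fintype.card_finset, Nat.mul_comm]
  let c : Finset β → Finset β → ℕ := fun B C =>
    #(univ.filter (fun p : {B // B ∈ G} × Fin N => p.1.1 = B ∧ (φ p).1 = C))
  have hrow : ∀ B, ∑ C, c B C = if B ∈ G then N else 0 := by
    intro B
    have h1 : ∑ C, c B C
        = #(univ.filter (fun p : {B // B ∈ G} × Fin N => p.1.1 = B)) := by
      rw [Finset.card_eq_sum_card_fiberwise (f := fun p => (φ p).1) (t := univ)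
        (fun _ _ => mem_coe.2 (mem_univ _))]
      refine Finset.sum_congr rfl fun C _ => ?_
      simp only [c, filter_filter]
    rw [h1]
    split_ifs with h
    · have : univ.filter (fun p : {B // B ∈ G} × Fin N => p.1.1 = B)
          = {(⟨B, h⟩ : {B // B ∈ G})} ×ˢ univ := by
        ext ⟨p, i⟩
        simp only [mem_filter, mem_univ, true_and, mem_product, mem_singleton, and_true,
          Subtype.ext_iff]
      rw [this, card_product, card_singleton, card_univ, Fintype.card_fin, one_mul]
    · rw [card_eq_zero, filter_eq_empty_iff]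
      rintro p - rfl
      exact h p.1.2
  have hcol : ∀ C, ∑ B, c B C = #G := by
    intro C
    have h1 : ∑ B, c B C
        = #(univ.filter (fun p : {B // B ∈ G} × Fin N => (φ p).1 = C)) := by
      rw [Finset.card_eq_sum_card_fiberwise (f := fun p => p.1.1) (t := univ)
        (fun _ _ => mem_coe.2 (mem_univ _))]
      refine Finset.sum_congr rfl fun B _ => ?_
      simp only [c, filter_filter]
      congr 1
      ext p
      simp [and_comm]
    have h2 : (univ.filter (fun p : {B // B ∈ G} × Fin N => (φ p).1 = C)).map ⟨φ, hinj⟩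
        = {C} ×ˢ univ := by
      ext q
      obtain ⟨p, rfl⟩ := hbij.2 q
      simp only [mem_map, mem_filter, mem_univ, true_and, Function.Embedding.coeFn_mk,
        mem_product, mem_singleton, and_true]
      constructor
      · rintro ⟨p', h, hp⟩; rw [← hp]; exact h
      · intro h; exact ⟨p, h, rfl⟩
    rw [h1, ← Finset.card_map ⟨φ, hinj⟩, h2, card_product, card_singleton, card_univ,
      Fintype.card_fin, one_mul]
  refine ⟨fun B C => (c B C : ℝ) / N, ?_, ?_, ?_, ?_⟩
  · intro B C; positivity
  · intro B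
    have h := hrow B
    have h' : (∑ C, (c B C : ℝ)) = if B ∈ G then (N : ℝ) else 0 := by
      rw [← Nat.cast_sum, h]; split_ifs <;> simp
    rw [← Finset.sum_div, h']
    dsimp only
    have hN' : (N : ℝ) ≠ 0 := by positivity
    split_ifs
    · exact div_self hN'
    · exact zero_div _
  · intro C
    have h' : (∑ B, (c B C : ℝ)) = (#G : ℝ) := by
      rw [← Nat.cast_sum, hcol C]
    rw [← Finset.sum_div, h', hN]
    push_cast
    rfl
  · intro B C h
    have : c B C = 0 := by
      simp only [c, card_eq_zero, filter_eq_empty_iff]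
      rintro p - ⟨h1, h2⟩
      apply h
      rw [← h1, ← h2]
      exact hφ' p
    simp [this]

theorem FlowsDown.fiberwise {X Y : Type*} [Fintype X] [Fintype Y] [DecidableEq X]
    [Preorder X] [Preorder Y] {f g : X → Y → ℝ} (h : ∀ a, FlowsDown (f a) (g a)) :
    FlowsDown (fun p : X × Y => f p.1 p.2) (fun p => g p.1 p.2) := by
  choose v v0 vr vc vs using h
  refine ⟨fun p q => if p.1 = q.1 then v p.1 p.2 q.2 else 0, ?_, ?_, ?_, ?_⟩
  · intro p q
    dsimp only
    split_ifs
    · exact v0 _ _ _
    · exact le_rfl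
  · rintro ⟨a, y⟩
    rw [Fintype.sum_prod_type]
    simp only
    rw [Finset.sum_eq_single a]
    · simp only [if_true, vr a y]
    · intro a' _ ha'
      simp [Ne.symm ha']
    · simp
  · rintro ⟨a', y'⟩
    rw [Fintype.sum_prod_type]
    simp only
    rw [Finset.sum_eq_single a']
    · simp only [if_true, vc a' y']
    · intro a _ ha
      simp [ha]
    · simp
  · rintro ⟨a, y⟩ ⟨a', y'⟩ hle
    simp only
    by_cases ha : a = a'
    · subst ha
      have hy : ¬ y' ≤ y := fun hh => hle ⟨le_rfl, hh⟩
      simp [vs _ _ _ hy]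
    · simp [ha]

theorem FlowsDown.refl' {X : Type*} [Fintype X] [DecidableEq X] [Preorder X] {f : X → ℝ}
    (hf : ∀ a, 0 ≤ f a) : FlowsDown f f := by
  refine ⟨fun a b => if a = b then f a else 0, ?_, ?_, ?_, ?_⟩
  · intro a b; dsimp only; split_ifs
    · exact hf _
    · exact le_rfl
  · intro a; simp
  · intro b; simp
  · intro a b h
    have : a ≠ b := fun hh => h (hh ▸ le_rfl)
    simp [this]

section fiber

variable {ι β : Type*} [Fintype ι] [Fintype β] [DecidableEq ι] [DecidableEq β]

/-- The sets `B ⊆ β` which together with `A ⊆ ι` form a member of `F`. -/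
def fiber (F : Finset (Finset (ι ⊕ β))) (A : Finset ι) : Finset (Finset β) :=
  univ.filter (fun B => A.disjSum B ∈ F)

/-- The proportion of sets `B ⊆ β` which together with `A ⊆ ι` form a member of `F`. -/
noncomputable def dens (F : Finset (Finset (ι ⊕ β))) (A : Finset ι) : ℝ :=
  (#(fiber F A) : ℝ) / 2 ^ Fintype.card β

variable {F : Finset (Finset (ι ⊕ β))}

omit [Fintype ι] in
theorem dens_nonneg (A : Finset ι) : 0 ≤ dens F A := by unfold dens; positivity

theorem fiber_compl (hF : AntipodalUpSet F) (A : Finset ι) :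
    fiber F Aᶜ = ((fiber F A).map ⟨fun S => Sᶜ, compl_injective⟩)ᶜ := by
  ext B
  simp only [fiber, mem_filter, mem_univ, true_and, mem_compl, mem_map,
    Function.Embedding.coeFn_mk]
  rw [hF.2]
  have h : (Aᶜ.disjSum B)ᶜ = A.disjSum Bᶜ := by
    ext x
    rcases x with x | x <;> simp
  rw [h]
  apply not_congr
  constructor
  · intro h1; exact ⟨Bᶜ, h1, compl_compl B⟩
  · rintro ⟨C, h1, rfl⟩; rw [compl_compl]; exact h1

theorem dens_compl (hF : AntipodalUpSet F) (A : Finset ι) : dens F Aᶜ = 1 - dens F A := by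
  unfold dens
  rw [fiber_compl hF, card_compl, card_map, Fintype.card_finset, Nat.cast_sub, sub_div]
  · congr 1
    push_cast
    exact div_self (by positivity)
  · have := Finset.card_le_univ (fiber F A)
    rwa [Fintype.card_finset] at this

theorem dens_univ (hF : AntipodalUpSet F) (hu : (univ : Finset ι).disjSum (∅ : Finset β) ∈ F) :
    dens F univ = 1 := by
  have : fiber F univ = univ := by
    ext B
    simp only [fiber, mem_filter, mem_univ, true_and, iff_true]
    refine hF.1 _ hu _ ?_
    rw [disjSum_subset, toLeft_disjSum, toRight_disjSum]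
    exact ⟨subset_refl _, empty_subset _⟩
  unfold dens
  rw [this, card_univ, Fintype.card_finset]
  push_cast
  exact div_self (by positivity)

theorem dens_empty (hF : AntipodalUpSet F) (hu : (univ : Finset ι).disjSum (∅ : Finset β) ∈ F) :
    dens F ∅ = 0 := by
  have := dens_compl hF (univ : Finset ι)
  rw [compl_univ, dens_univ hF hu] at this
  rw [this]; ring

theorem fiber_kleitman (hF : AntipodalUpSet F) (w : ι → ℝ) (w0 : ∀ i, 0 ≤ w i)
    (w1 : ∑ i, w i = 1) (hμ : FlowsDown (dens F) (fun A : Finset ι => ∑ i ∈ A, w i)) :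
    Kleitman F := by
  have e1 : FlowsDown (fun p : Finset ι × Finset β => if p.2 ∈ fiber F p.1 then (1 : ℝ) else 0)
      (fun p => dens F p.1) := by
    apply FlowsDown.fiberwise (f := fun A B => if B ∈ fiber F A then (1 : ℝ) else 0)
      (g := fun A _ => dens F A)
    intro A
    apply flow_const
    intro S hS T hST
    simp only [fiber, mem_filter, mem_univ, true_and] at hS ⊢
    refine hF.1 _ hS _ ?_
    rw [disjSum_subset, toLeft_disjSum, toRight_disjSum]
    exact ⟨subset_refl _, hST⟩
  have e2 : FlowsDown (fun p : Finset β × Finset ι => dens F p.2)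
      (fun p => ∑ i ∈ p.2, w i) :=
    FlowsDown.fiberwise (f := fun _ A => dens F A) (g := fun _ A => ∑ i ∈ A, w i) (fun _ => hμ)
  have e3 := e2.transfer (OrderIso.prodComm (α := Finset ι) (β := Finset β))
  have e4 := (e1.trans e3).transfer (Finset.sumEquiv (α := ι) (β := β))
  refine ⟨Sum.elim w (fun _ => 0), ?_, ?_, ?_⟩
  · rintro (i | j)
    · exact w0 _
    · exact le_rfl
  · rw [Fintype.sum_sum_type]
    simpa using w1
  · convert e4 using 1
    · funext S
      have h : S ∈ F ↔ S.toRight ∈ fiber F S.toLeft := by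
        simp only [fiber, mem_filter, mem_univ, true_and, toLeft_disjSum_toRight]
      simp only [h]
      rfl
    · funext S
      conv_lhs => rw [← Finset.toLeft_disjSum_toRight (u := S)]
      rw [Finset.sum_disjSum]
      simp only [Sum.elim_inl, Sum.elim_inr, Finset.sum_const_zero, add_zero]
      rfl

end fiber

theorem pair_kleitman {β : Type*} [Fintype β] [DecidableEq β]
    {F : Finset (Finset (Fin 2 ⊕ β))} (hF : AntipodalUpSet F)
    (hu : (univ : Finset (Fin 2)).disjSum (∅ : Finset β) ∈ F) : Kleitman F := by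
  have h01 : dens F {1} = 1 - dens F {0} := by
    have := dens_compl hF {0}
    rwa [show ({0} : Finset (Fin 2))ᶜ = {1} by decide] at this
  refine fiber_kleitman hF (fun i => dens F {i}) (fun i => dens_nonneg _) ?_ ?_
  · rw [Fin.sum_univ_two, h01]; ring
  · have : (fun A : Finset (Fin 2) => ∑ i ∈ A, dens F {i}) = dens F := by
      funext A
      have hA : A = ∅ ∨ A = {0} ∨ A = {1} ∨ A = univ := by revert A; decide
      rcases hA with rfl | rfl | rfl | rfl
      · simp [dens_empty hF hu]
      · simp
      · simp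
      · rw [Fin.sum_univ_two, dens_univ hF hu, h01]; ring
    rw [this]
    exact FlowsDown.refl' dens_nonneg

/-- Moves from two-element subsets to their points. -/
def n3 (S T : Finset (Fin 3)) : ℕ := if #S = 2 ∧ #T = 1 ∧ T ⊆ S then 1 else 0

theorem n3_row : ∀ S : Finset (Fin 3), ∑ T, n3 S T = if #S = 2 then 2 else 0 := by
  unfold n3; decide

theorem n3_col : ∀ T : Finset (Fin 3), ∑ S, n3 S T = if #T = 1 then 2 else 0 := by
  unfold n3; decide

theorem triple_kleitman {β : Type*} [Fintype β] [DecidableEq β]
    {F : Finset (Finset (Fin 3 ⊕ β))} (hF : AntipodalUpSet F)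
    (hu : (univ : Finset (Fin 3)).disjSum (∅ : Finset β) ∈ F)
    (hsum : #(fiber F {0}) + #(fiber F {1}) + #(fiber F {2}) ≤ 2 ^ Fintype.card β) :
    Kleitman F := by
  have ha : dens F {0} + dens F {1} + dens F {2} ≤ 1 := by
    unfold dens
    rw [← add_div, ← add_div, div_le_one (by positivity)]
    exact_mod_cast hsum
  obtain ⟨δ, hδ⟩ : ∃ δ : ℝ, 3 * δ = 1 - (dens F {0} + dens F {1} + dens F {2}) :=
    ⟨(1 - (dens F {0} + dens F {1} + dens F {2})) / 3, by ring⟩
  have hδ0 : 0 ≤ δ := by linarith
  have p0 := dens_nonneg (F := F) {0}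
  have p1 := dens_nonneg (F := F) {1}
  have p2 := dens_nonneg (F := F) {2}
  have h12 : dens F {1, 2} = 1 - dens F {0} := by
    have := dens_compl hF {0}
    rwa [show ({0} : Finset (Fin 3))ᶜ = {1, 2} by decide] at this
  have h02 : dens F {0, 2} = 1 - dens F {1} := by
    have := dens_compl hF {1}
    rwa [show ({1} : Finset (Fin 3))ᶜ = {0, 2} by decide] at this
  have h01 : dens F {0, 1} = 1 - dens F {2} := by
    have := dens_compl hF {2}
    rwa [show ({2} : Finset (Fin 3))ᶜ = {0, 1} by decide] at this
  have hcases : ∀ A : Finset (Fin 3), A = ∅ ∨ A = {0} ∨ A = {1} ∨ A = {2} ∨ A = {0, 1} ∨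
      A = {0, 2} ∨ A = {1, 2} ∨ A = univ := by decide
  refine fiber_kleitman hF (fun i => dens F {i} + δ) (fun i => add_nonneg (dens_nonneg _) hδ0)
    ?_ ?_
  · rw [Fin.sum_univ_three]; linarith
  · refine ⟨fun S T => (if S = T then dens F S - δ * (if #S = 2 then 1 else 0) else 0)
      + δ / 2 * n3 S T, ?_, ?_, ?_, ?_⟩
    · intro S T
      apply add_nonneg
      · split_ifs with h1 h2
        · rcases hcases S with rfl | rfl | rfl | rfl | rfl | rfl | rfl | rfl
          · exact absurd h2 (by decide)
          · exact absurd h2 (by decide)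
          · exact absurd h2 (by decide)
          · exact absurd h2 (by decide)
          · rw [h01]; linarith
          · rw [h02]; linarith
          · rw [h12]; linarith
          · exact absurd h2 (by decide)
        · rw [mul_zero, sub_zero]; exact dens_nonneg _
        · exact le_rfl
      · positivity
    · intro S
      have h := n3_row S
      have h' : (∑ T, (n3 S T : ℝ)) = if #S = 2 then 2 else 0 := by
        rw [← Nat.cast_sum, h]; split_ifs <;> simp
      rw [Finset.sum_add_distrib, ← Finset.mul_sum, h']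
      simp only [Finset.sum_ite_eq, mem_univ, if_true]
      split_ifs <;> ring
    · intro T
      have h := n3_col T
      have h' : (∑ S, (n3 S T : ℝ)) = if #T = 1 then 2 else 0 := by
        rw [← Nat.cast_sum, h]; split_ifs <;> simp
      rw [Finset.sum_add_distrib, ← Finset.mul_sum, h']
      simp only [Finset.sum_ite_eq', mem_univ, if_true]
      rcases hcases T with rfl | rfl | rfl | rfl | rfl | rfl | rfl | rfl
      · simp [dens_empty hF hu]
      · simp
      · simp
      · simp
      · rw [h01, if_pos (by decide), if_neg (by decide), Finset.sum_pair (by decide)]; linarith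
      · rw [h02, if_pos (by decide), if_neg (by decide), Finset.sum_pair (by decide)]; linarith
      · rw [h12, if_pos (by decide), if_neg (by decide), Finset.sum_pair (by decide)]; linarith
      · rw [dens_univ hF hu, if_neg (by decide), if_neg (by decide), Fin.sum_univ_three]; linarith
    · intro S T h
      have h1 : S ≠ T := fun hh => h (hh ▸ le_rfl)
      have h2 : n3 S T = 0 := by
        unfold n3
        rw [if_neg]
        exact fun hh => h hh.2.2
      simp [h1, h2]

/-- The dictatorship of `a`. -/
def dictator (α : Type*) [Fintype α] [DecidableEq α] (a : α) : Finset (Finset α) :=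
  univ.filter (fun S => a ∈ S)

/-- The family of subsets of a three-element set with at least two elements. -/
def maj3 : Finset (Finset (Fin 3)) := univ.filter (fun S => 2 ≤ #S)

/-- Relabelling of a family along a bijection of ground sets. -/
def relabel {α β : Type*} [Fintype α] [Fintype β] [DecidableEq α] [DecidableEq β]
    (e : α ≃ β) (F : Finset (Finset α)) : Finset (Finset β) :=
  univ.filter (fun S => S.map e.symm.toEmbedding ∈ F)

theorem dictator_antipodal {α : Type*} [Fintype α] [DecidableEq α] (a : α) :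
    AntipodalUpSet (dictator α a) := by
  refine ⟨fun S hS T hST => ?_, fun S => ?_⟩
  · simp only [dictator, mem_filter, mem_univ, true_and] at hS ⊢
    exact hST hS
  · simp [dictator]

theorem dictator_kleitman {α : Type*} [Fintype α] [DecidableEq α] (a : α) :
    Kleitman (dictator α a) := by
  refine ⟨fun i => if i = a then 1 else 0, fun i => by dsimp only; split_ifs <;> norm_num,
    by simp, ?_⟩
  refine ⟨fun S T => if S = T then (if a ∈ S then 1 else 0) else 0, ?_, ?_, ?_, ?_⟩
  · intro S T; dsimp only; split_ifs <;> norm_num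
  · intro S; simp [dictator]
  · intro T; simp
  · intro S T h
    have : S ≠ T := fun hh => h (hh ▸ le_rfl)
    simp [this]

/-- Six times the flow for `maj3`. -/
def m3 (S T : Finset (Fin 3)) : ℕ :=
  if 2 ≤ #S ∧ T ⊆ S then
    (if T = S then (if #S = 3 then 6 else 4) else if #S = 2 ∧ #T = 1 then 1 else 0)
  else 0

theorem maj3_antipodal : AntipodalUpSet maj3 := by
  unfold AntipodalUpSet maj3
  decide

theorem m3_row : ∀ S : Finset (Fin 3), ∑ T, m3 S T = if S ∈ maj3 then 6 else 0 := by
  unfold m3 maj3
  decide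

theorem m3_col : ∀ T : Finset (Fin 3), ∑ S, m3 S T = 2 * #T := by
  unfold m3
  decide

theorem maj3_kleitman : Kleitman maj3 := by
  refine ⟨fun _ => 1 / 3, fun _ => by norm_num, by simp, fun S T => (m3 S T : ℝ) / 6, ?_, ?_, ?_, ?_⟩
  · intro S T; positivity
  · intro S
    have h := m3_row S
    have h' : (∑ T, (m3 S T : ℝ)) = if S ∈ maj3 then 6 else 0 := by
      exact_mod_cast congrArg (Nat.cast : ℕ → ℝ) h
    rw [← Finset.sum_div, h']
    dsimp only
    by_cases hS : S ∈ maj3
    · rw [if_pos hS, if_pos hS]; norm_num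
    · rw [if_neg hS, if_neg hS]; norm_num
  · intro T
    have h' : (∑ S, (m3 S T : ℝ)) = 2 * #T := by
      exact_mod_cast congrArg (Nat.cast : ℕ → ℝ) (m3_col T)
    rw [← Finset.sum_div, h']
    simp only [Finset.sum_const, nsmul_eq_mul]
    ring
  · intro S T h
    have : m3 S T = 0 := by
      unfold m3
      rw [if_neg]
      exact fun hh => h hh.2
    simp [this]

/-- The order isomorphism of power sets induced by a bijection. -/
def mapIso {α β : Type*} (e : α ≃ β) : Finset β ≃o Finset α where
  toEquiv := e.symm.finsetCongr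
  map_rel_iff' := by intro a b; simp [Equiv.finsetCongr_apply]

theorem relabel_antipodal {α β : Type*} [Fintype α] [Fintype β] [DecidableEq α] [DecidableEq β]
    (e : α ≃ β) {F : Finset (Finset α)} (hF : AntipodalUpSet F) :
    AntipodalUpSet (relabel e F) := by
  refine ⟨fun S hS T hST => ?_, fun S => ?_⟩
  · simp only [relabel, mem_filter, mem_univ, true_and] at hS ⊢
    exact hF.1 _ hS _ (map_subset_map.2 hST)
  · simp only [relabel, mem_filter, mem_univ, true_and]
    rw [hF.2]
    have : (S.map e.symm.toEmbedding)ᶜ = (Sᶜ).map e.symm.toEmbedding := by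
      ext x; simp [Finset.mem_map_equiv]
    rw [this]

theorem relabel_kleitman {α β : Type*} [Fintype α] [Fintype β] [DecidableEq α] [DecidableEq β]
    (e : α ≃ β) {F : Finset (Finset α)} (kF : Kleitman F) : Kleitman (relabel e F) := by
  obtain ⟨w, w0, w1, h⟩ := kF
  have h1 := h.transfer (mapIso e)
  refine ⟨fun j => w (e.symm j), fun j => w0 _, by rw [Equiv.sum_comp e.symm w]; exact w1, ?_⟩
  convert h1 using 1
  · funext S
    simp only [relabel, mem_filter, mem_univ, true_and]
    rfl
  · funext S
    have : mapIso e S = S.map e.symm.toEmbedding := rfl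
    rw [this, Finset.sum_map]
    rfl

/-- `F` is a maximal intersecting family. -/
def MaximalIntersecting {α : Type*} [Fintype α] [DecidableEq α] (F : Finset (Finset α)) : Prop :=
  (∀ S ∈ F, ∀ T ∈ F, (S ∩ T).Nonempty) ∧
    ∀ F' : Finset (Finset α), F ⊆ F' → (∀ S ∈ F', ∀ T ∈ F', (S ∩ T).Nonempty) → F' = F

theorem maximal_of_antipodal {α : Type*} [Fintype α] [DecidableEq α] {F : Finset (Finset α)}
    (hF : AntipodalUpSet F) : MaximalIntersecting F := by
  refine ⟨fun S hS T hT => ?_, fun F' hFF' hint => ?_⟩
  · by_contra h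
    rw [Finset.not_nonempty_iff_eq_empty, ← Finset.disjoint_iff_inter_eq_empty] at h
    have hsub : T ⊆ Sᶜ := fun x hx => by
      rw [mem_compl]; exact fun hx' => (Finset.disjoint_left.1 h) hx' hx
    exact (hF.2 S).1 hS (hF.1 T hT _ hsub)
  · apply Finset.Subset.antisymm _ hFF'
    intro S hS
    by_contra h
    have hc : Sᶜ ∈ F := by rw [hF.2, compl_compl]; exact h
    obtain ⟨x, hx⟩ := hint S hS _ (hFF' hc)
    rw [mem_inter, mem_compl] at hx
    exact hx.2 hx.1

theorem antipodal_of_maximal {α : Type*} [Fintype α] [DecidableEq α] [Nonempty α]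
    {F : Finset (Finset α)} (hF : MaximalIntersecting F) : AntipodalUpSet F := by
  obtain ⟨hint, hmax⟩ := hF
  have hadd : ∀ T : Finset α, T.Nonempty → (∀ S ∈ F, (S ∩ T).Nonempty) → T ∈ F := by
    intro T hT hS
    have : insert T F = F := by
      apply hmax _ (subset_insert _ _)
      intro A hA B hB
      rcases mem_insert.1 hA with hA1 | hA1
      · rcases mem_insert.1 hB with hB1 | hB1
        · rw [hA1, hB1, inter_self]; exact hT
        · rw [hA1, inter_comm]; exact hS B hB1
      · rcases mem_insert.1 hB with hB1 | hB1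
        · rw [hB1]; exact hS A hA1
        · exact hint A hA1 B hB1
    rw [← this]; exact mem_insert_self _ _
  have hup : ∀ S ∈ F, ∀ T : Finset α, S ⊆ T → T ∈ F := by
    intro S hS T hST
    apply hadd T
    · have := hint S hS S hS
      rw [inter_self] at this
      exact this.mono hST
    · intro R hR
      exact (hint R hR S hS).mono (inter_subset_inter_left hST)
  refine ⟨hup, fun S => ⟨fun hS hc => ?_, fun hc => ?_⟩⟩
  · obtain ⟨x, hx⟩ := hint S hS _ hc
    rw [mem_inter, mem_compl] at hx
    exact hx.2 hx.1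
  · have huniv : univ ∈ F := by
      apply hadd _ univ_nonempty
      intro R hR
      have := hint R hR R hR
      rw [inter_self] at this
      rwa [inter_univ]
    apply hadd S
    · by_contra h
      rw [Finset.not_nonempty_iff_eq_empty] at h
      apply hc
      rw [h, compl_empty]; exact huniv
    · intro R hR
      by_contra h
      rw [Finset.not_nonempty_iff_eq_empty, ← Finset.disjoint_iff_inter_eq_empty] at h
      apply hc
      refine hup R hR _ fun x hx => ?_
      rw [mem_compl]; exact fun hx' => (Finset.disjoint_left.1 h) hx hx'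

/-- The least class of families of subsets of finite types which
* contains all dictatorships and the majority of three points;
* contains every maximal intersecting family having a two-element member (`pair`; the member is
  `{inl 0, inl 1}`, where the ground set is written `Fin 2 ⊕ β`);
* contains every maximal intersecting family with a three-element member `K` such that at most
  `2 ^ |β|` members meet `K` in exactly one point (`triple`; the member is
  `{inl 0, inl 1, inl 2}`, where the ground set is written `Fin 3 ⊕ β`);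
* is closed under relabelling the ground set and under substitution. -/
inductive Gen : (α : Type) → [Fintype α] → [DecidableEq α] → Finset (Finset α) → Prop
  | dict (α : Type) [Fintype α] [DecidableEq α] (a : α) : Gen α (dictator α a)
  | maj : Gen (Fin 3) maj3
  | pair {β : Type} [Fintype β] [DecidableEq β] (F : Finset (Finset (Fin 2 ⊕ β))) :
      MaximalIntersecting F → (univ : Finset (Fin 2)).disjSum (∅ : Finset β) ∈ F →
      Gen (Fin 2 ⊕ β) F
  | triple {β : Type} [Fintype β] [DecidableEq β] (F : Finset (Finset (Fin 3 ⊕ β))) :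
      MaximalIntersecting F → (univ : Finset (Fin 3)).disjSum (∅ : Finset β) ∈ F →
      #(F.filter (fun S => #S.toLeft = 1)) ≤ 2 ^ Fintype.card β → Gen (Fin 3 ⊕ β) F
  | relabel {α β : Type} [Fintype α] [DecidableEq α] [Fintype β] [DecidableEq β] (e : α ≃ β)
      (F : Finset (Finset α)) : Gen α F → Gen β (relabel e F)
  | subst {α β : Type} [Fintype α] [DecidableEq α] [Fintype β] [DecidableEq β]
      (H : Finset (Finset (α ⊕ Unit))) (G : Finset (Finset β)) :
      Gen (α ⊕ Unit) H → Gen β G → Gen (α ⊕ β) (subst H G)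

theorem card_fibers {β : Type*} [Fintype β] [DecidableEq β] (F : Finset (Finset (Fin 3 ⊕ β))) :
    #(fiber F {0}) + #(fiber F {1}) + #(fiber F {2}) = #(F.filter (fun S => #S.toLeft = 1)) := by
  have h1 : ∀ i : Fin 3, #(fiber F {i}) = #(F.filter (fun S => S.toLeft = {i})) := by
    intro i
    refine Finset.card_bij (fun B _ => ({i} : Finset (Fin 3)).disjSum B) ?_ ?_ ?_
    · intro B hB
      simp only [fiber, mem_filter, mem_univ, true_and] at hB ⊢
      exact ⟨hB, toLeft_disjSum⟩
    · intro B _ C _ h
      have := congrArg Finset.toRight h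
      simpa using this
    · intro S hS
      obtain ⟨hS1, hS2⟩ := mem_filter.1 hS
      refine ⟨S.toRight, ?_, ?_⟩
      · simp only [fiber, mem_filter, mem_univ, true_and]
        rw [← hS2, toLeft_disjSum_toRight]; exact hS1
      · rw [← hS2, toLeft_disjSum_toRight]
  have h2 : F.filter (fun S => #S.toLeft = 1)
      = univ.biUnion (fun i : Fin 3 => F.filter (fun S => S.toLeft = {i})) := by
    ext S
    simp only [mem_filter, mem_biUnion, mem_univ, true_and, card_eq_one]
    constructor
    · rintro ⟨h, i, hi⟩; exact ⟨i, h, hi⟩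
    · rintro ⟨i, h, hi⟩; exact ⟨h, i, hi⟩
  rw [h2, Finset.card_biUnion, Fin.sum_univ_three, h1, h1, h1]
  intro i _ j _ hij
  rw [Function.onFun, Finset.disjoint_left]
  intro S hS hS'
  have e1 := (mem_filter.1 hS).2
  have e2 := (mem_filter.1 hS').2
  rw [e1] at e2
  exact hij (singleton_injective e2)

theorem gen_good (α : Type) [Fintype α] [DecidableEq α] (F : Finset (Finset α)) (h : Gen α F) :
    AntipodalUpSet F ∧ Kleitman F := by
  induction h with
  | dict α a => exact ⟨dictator_antipodal a, dictator_kleitman a⟩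
  | maj => exact ⟨maj3_antipodal, maj3_kleitman⟩
  | pair F hF hu => exact ⟨antipodal_of_maximal hF, pair_kleitman (antipodal_of_maximal hF) hu⟩
  | triple F hF hu hc =>
    exact ⟨antipodal_of_maximal hF,
      triple_kleitman (antipodal_of_maximal hF) hu (by rw [card_fibers]; exact hc)⟩
  | relabel e F _ ih => exact ⟨relabel_antipodal e ih.1, relabel_kleitman e ih.2⟩
  | subst H G _ _ ih1 ih2 =>
    exact ⟨subst_antipodal ih1.1 ih2.1, subst_kleitman ih2.1 ih1.2 ih2.2⟩

/-- Every family in the class `Gen` is a maximal intersecting family and satisfies the conclusion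
of Kleitman's flow-down conjecture. -/
theorem result (α : Type) [Fintype α] [DecidableEq α] (F : Finset (Finset α)) (h : Gen α F) :
    MaximalIntersecting F ∧ Kleitman F :=
  ⟨maximal_of_antipodal (gen_good α F h).1, (gen_good α F h).2⟩

end Pool.Agent.Results.MP_67d0bb_co.Substitution
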